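import Pool.Agent.KS6_69.LL.Lamp

/-!
# A normal subgroup inside a quasi-ray that separates into infinitely many deep pieces

The lamplighter group `C₂ ≀ ℤ` is one-ended. Its base group lies in the image of a quasi-ray and
separates the Cayley graph into infinitely many pieces, none of them coarsely contained in it.
-/

set_option autoImplicit false

namespace Pool.Agent.Results.MP_0ee5c7_al.InfinitelyMany

open Pool.Agent.KS6_69.LL

/-- `Γ` is the Cayley graph of `G` for the generating set `S`. -/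
def IsCayleyGraph {G : Type} [Group G] (S : Finset G) (Γ : SimpleGraph G) : Prop :=
  Subgroup.closure (S : Set G) = ⊤ ∧
    ∀ g h : G, Γ.Adj g h ↔ (g ≠ h ∧ ∃ s ∈ S, h = g * s ∨ g = h * s)

/-- Outside some finite set any two vertices are joined by a path avoiding the given finite set. For a
Cayley graph of a finitely generated infinite group this says that the group has one end, and by
Stallings' theorem that it does not split over a finite subgroup. -/
def OneEnded {G : Type} (Γ : SimpleGraph G) : Prop :=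
  ∀ F : Finset G, ∃ F' : Finset G, ∀ a b : G, a ∉ F' → b ∉ F' →
    ∃ p : Γ.Walk a b, ∀ v ∈ p.support, v ∉ F

/-- `f` restricted to `[0, ∞)` is a uniform embedding into the vertices of `Γ`. -/
def IsQuasiRay {G : Type} (Γ : SimpleGraph G) (f : ℝ → G) : Prop :=
  (∃ C D : ℝ, ∀ x y : ℝ, 0 ≤ x → 0 ≤ y → (Γ.dist (f x) (f y) : ℝ) ≤ C * |x - y| + D) ∧
    ∀ M : ℝ, ∃ N : ℝ, ∀ x y : ℝ, 0 ≤ x → 0 ≤ y → N ≤ |x - y| → M ≤ (Γ.dist (f x) (f y) : ℝ)

/-- The complement of the `K`-neighbourhood of `Y` is the disjoint union of infinitely many sets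
without edges between them, none of which is coarsely contained in `Y`. -/
def SeparatesInfinitely {G : Type} (Γ : SimpleGraph G) (Y : Set G) (K : ℕ) : Prop :=
  ∃ (I : Type) (_ : Infinite I) (P : I → Set G), (∀ i j, i ≠ j → Disjoint (P i) (P j)) ∧
    (⋃ i, P i) = {g : G | ∀ y ∈ Y, K < Γ.dist g y} ∧
    (∀ i j, i ≠ j → ∀ a ∈ P i, ∀ b ∈ P j, ¬ Γ.Adj a b) ∧
    ∀ i, ∀ R : ℕ, ¬ P i ⊆ {g : G | ∃ y ∈ Y, Γ.dist g y ≤ R}

open Lamp Classical in
/-- The side of the base group and the lamps beyond it. -/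
noncomputable def piece (g : Lamp.G) : Bool × (ℤ →₀ ZMod 2) :=
  if 0 < g.2.toAdd then (true, g.1.toAdd.filter fun y => y ≤ 0)
    else (false, g.1.toAdd.filter fun y => 0 ≤ y)

open Lamp in
lemma piece_mk_pos (c : ℤ →₀ ZMod 2) (x : ℤ) (hx : 0 < x) :
    piece (mk c x) = (true, c.filter fun y => y ≤ 0) := by
  classical
  unfold piece
  rw [if_pos (by simpa [mk] using hx)]
  congr 1

open Lamp in
lemma piece_mk_neg (c : ℤ →₀ ZMod 2) (x : ℤ) (hx : x < 0) :
    piece (mk c x) = (false, c.filter fun y => 0 ≤ y) := by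
  classical
  unfold piece
  rw [if_neg (by simp [mk]; omega)]
  congr 1

open Lamp in
lemma piece_adj (c : ℤ →₀ ZMod 2) (x : ℤ) (c' : ℤ →₀ ZMod 2) (x' : ℤ) (hx : x ≠ 0) (hx' : x' ≠ 0)
    (h : Γ.Adj (mk c x) (mk c' x')) : piece (mk c x) = piece (mk c' x') := by
  classical
  obtain ⟨h1, h2⟩ := adj_c h
  rw [abs_le] at h1
  rcases lt_or_gt_of_ne hx with k | k
  · rw [piece_mk_neg c x k, piece_mk_neg c' x' (by omega)]
    congr 1
    ext y
    rw [Finsupp.filter_apply, Finsupp.filter_apply]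
    split_ifs with hy
    · exact h2 y (by omega)
    · rfl
  · rw [piece_mk_pos c x k, piece_mk_pos c' x' (by omega)]
    congr 1
    ext y
    rw [Finsupp.filter_apply, Finsupp.filter_apply]
    split_ifs with hy
    · exact h2 y (by omega)
    · rfl

/-- There are a group `G` with finite generating set `S` and one-ended Cayley graph, a quasi-ray `f`
and a normal subgroup `Y` of `G` contained in the image of `f`, such that `Y` separates the
Cayley graph into infinitely many pieces none of which is coarsely contained in `Y`. -/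
theorem result : ∃ (G : Type) (_ : Group G) (S : Finset G) (Γ : SimpleGraph G),
    IsCayleyGraph S Γ ∧ OneEnded Γ ∧ ∃ f : ℝ → G, IsQuasiRay Γ f ∧
      ∃ Y : Subgroup G, Y.Normal ∧ (Y : Set G) ⊆ f '' Set.Ici (0 : ℝ) ∧
        SeparatesInfinitely Γ (Y : Set G) 0 := by
  classical
  open Lamp in
  have hY : ∀ g : Lamp.G, g ∈ (SemidirectProduct.rightHom (φ := Aff.shift ℤ (ZMod 2))).ker ↔
      g.2.toAdd = 0 := by
    intro g
    rw [MonoidHom.mem_ker]
    exact ⟨fun h => by
      have : g.2 = 1 := h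
      rw [this]; rfl, fun h => by
      show g.2 = 1
      exact Multiplicative.toAdd.injective h⟩
  open Lamp in
  have hg : ∀ g : Lamp.G, g = mk g.1.toAdd g.2.toAdd := fun g => rfl
  open Lamp in
  refine ⟨Lamp.G, inferInstance, S, Γ, ⟨top, fun g h => by simp [Γ, and_or_left, exists_or]⟩,
    one_end, fun x => e ⌊x⌋₊, ⟨⟨2, 2, fun x y hx hy => ?_⟩, fun M => ?_⟩,
    (SemidirectProduct.rightHom (φ := Aff.shift ℤ (ZMod 2))).ker, inferInstance, fun g hg => ?_,
    {j // ∃ g : Lamp.G, g.2.toAdd ≠ 0 ∧ piece g = j}, ?_,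
    fun j => {g | g.2.toAdd ≠ 0 ∧ piece g = j.1}, ?_, ?_, ?_, ?_⟩
  · wlog h : x ≤ y generalizing x y
    · rw [SimpleGraph.dist_comm, abs_sub_comm]; exact this y x hy hx (le_of_not_ge h)
    obtain ⟨j, hj⟩ := Nat.exists_eq_add_of_le (Nat.floor_mono h)
    have h1 : (Γ.dist (e ⌊x⌋₊) (e ⌊y⌋₊) : ℝ) ≤ 2 * j := by rw [hj]; exact_mod_cast e_lip _ j
    have h2 : (⌊y⌋₊ : ℝ) = ⌊x⌋₊ + j := by exact_mod_cast hj
    rw [abs_sub_comm, abs_of_nonneg (sub_nonneg.2 h)]
    linarith [Nat.floor_le hy, Nat.lt_floor_add_one x]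
  · obtain ⟨N, h⟩ := e_far ⌈M⌉₊
    refine ⟨N + 1, fun x y hx hy k => (Nat.le_ceil M).trans (Nat.cast_le.2 (le_of_not_ge fun k' => ?_))⟩
    have h1 : (⌊x⌋₊ : ℝ) ≤ ⌊y⌋₊ + N := by exact_mod_cast h _ _ k'
    have h2 : (⌊y⌋₊ : ℝ) ≤ ⌊x⌋₊ + N := by exact_mod_cast h _ _ (SimpleGraph.dist_comm ▸ k')
    refine k.not_gt (abs_lt.2 ⟨?_, ?_⟩) <;>
      linarith [Nat.floor_le hy, Nat.lt_floor_add_one x, Nat.floor_le hx, Nat.lt_floor_add_one y]
  · have hg' := (hY g).1 hg
    obtain ⟨k, h⟩ := e_surj g.1.toAdd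
    exact ⟨k, Set.mem_Ici.2 (Nat.cast_nonneg k), by
      simp only [Nat.floor_natCast, h, ← show g.2.toAdd = 0 from hg']; rfl⟩
  · refine Infinite.of_injective (fun n : ℕ => ⟨piece (mk (Finsupp.single (-(n : ℤ)) 1) 1),
      _, by simp [mk], rfl⟩) fun n m h => ?_
    have h' := congrArg Subtype.val h
    simp only at h'
    rw [piece_mk_pos _ _ one_pos, piece_mk_pos _ _ one_pos] at h'
    have h2 := congrFun (congrArg (fun q => (q.2 : ℤ → ZMod 2)) h') (-(n : ℤ))
    simp only [Finsupp.filter_apply] at h2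
    rw [if_pos (by omega), if_pos (by omega), Finsupp.single_eq_same, Finsupp.single_apply] at h2
    by_contra hne
    rw [if_neg (by omega)] at h2
    exact one_ne_zero h2
  · intro i j hij
    rw [Set.disjoint_left]
    rintro g ⟨-, h1⟩ ⟨-, h2⟩
    exact hij (Subtype.ext (h1.symm.trans h2))
  · ext g
    simp only [Set.mem_iUnion, Set.mem_ofPred_eq]
    constructor
    · rintro ⟨i, h1, -⟩ y hy
      refine cn.pos_dist_of_ne ?_
      rintro rfl
      exact h1 ((hY g).1 hy)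
    · intro h
      have h1 : g.2.toAdd ≠ 0 := by
        intro h0
        have := h g ((hY g).2 h0)
        simp at this
      exact ⟨⟨piece g, g, h1, rfl⟩, h1, rfl⟩
  · rintro i j hij a ⟨ha, ha'⟩ b ⟨hb, hb'⟩ hadj
    refine hij (Subtype.ext ?_)
    rw [← ha', ← hb']
    exact piece_adj a.1.toAdd a.2.toAdd b.1.toAdd b.2.toAdd ha hb hadj
  · rintro ⟨j, g, hg0, rfl⟩ R hsub
    rcases lt_or_gt_of_ne hg0 with h | h
    · have hmem : mk g.1.toAdd (-R - 1) ∈ {g' : Lamp.G | g'.2.toAdd ≠ 0 ∧ piece g' = piece g} := by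
        refine ⟨show (-R - 1 : ℤ) ≠ 0 by omega, ?_⟩
        rw [hg g, piece_mk_neg _ _ (by omega), piece_mk_neg _ _ h]
        rfl
      obtain ⟨y, h1, h2⟩ := hsub hmem
      have := (dist_c g.1.toAdd (-R - 1) y.1.toAdd y.2.toAdd).1.trans (Nat.cast_le.2 h2)
      rw [(hY y).1 h1, abs_le] at this
      omega
    · have hmem : mk g.1.toAdd (R + 1) ∈ {g' : Lamp.G | g'.2.toAdd ≠ 0 ∧ piece g' = piece g} := by
        refine ⟨show (R + 1 : ℤ) ≠ 0 by omega, ?_⟩
        rw [hg g, piece_mk_pos _ _ (by omega), piece_mk_pos _ _ h]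
        rfl
      obtain ⟨y, h1, h2⟩ := hsub hmem
      have := (dist_c g.1.toAdd (R + 1) y.1.toAdd y.2.toAdd).1.trans (Nat.cast_le.2 h2)
      rw [(hY y).1 h1, abs_le] at this
      omega

end Pool.Agent.Results.MP_0ee5c7_al.InfinitelyMany
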